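import Mathlib

namespace Pool.Agent.H.MP_70010f_co

open Module Order Filter Topology

variable {V : Type*} [AddCommGroup V] [Module ℝ V] [FiniteDimensional ℝ V]
  {ι : Type*} [Fintype ι]

def P (f : ι → Dual ℝ V) (X : Set V) : Prop :=
  (∃ A : Set (Dual ℝ V), (∀ g ∈ A, ∃ i, ∃ c : ℝ, c ≠ 0 ∧ g = c • f i) ∧
    X = {x | ∀ g ∈ A, 0 ≤ g x}) ∧ X ≠ {0}

lemma upper (f : ι → Dual ℝ V) :
    krullDim {X // P f X} ≤ (finrank ℝ V - 1 + Fintype.card ι : ℕ) := by
  classical
  let c : Set V → Finset ι := fun X =>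
    Finset.univ.filter fun i => ¬ (∀ x ∈ X, 0 ≤ f i x) ∧ ¬ ∀ x ∈ X, f i x ≤ 0
  let ψ : {X // P f X} → ℕ := fun X => finrank ℝ (Submodule.span ℝ X.1) - 1 + (c X.1).card
  have pos : ∀ X : {X // P f X}, 1 ≤ finrank ℝ (Submodule.span ℝ X.1) := by
    rintro ⟨X, ⟨A, hA, e⟩, h0⟩
    by_contra h
    have : Submodule.span ℝ X = ⊥ := Submodule.finrank_eq_zero.1 (by simpa using h)
    refine h0 (Set.Subset.antisymm (fun x hx => Submodule.span_eq_bot.1 this x hx) ?_)
    rintro _ rfl
    simp [e]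
  have mono : StrictMono ψ := by
    intro X Y hXY
    have p := pos X
    obtain ⟨X, ⟨A, hA, e⟩, h0⟩ := X
    obtain ⟨Y, hY⟩ := Y
    have hs : X ⊆ Y := hXY.le
    obtain ⟨y, hy, hyX⟩ := Set.exists_of_ssubset (show X ⊂ Y from hXY)
    have sub : c X ⊆ c Y := by
      intro i
      simp only [c, Finset.mem_filter, Finset.mem_univ, true_and]
      exact fun h => ⟨fun k => h.1 fun x hx => k x (hs hx), fun k => h.2 fun x hx => k x (hs hx)⟩
    have m1 := Finset.card_le_card sub
    have m2 := Submodule.finrank_mono (Submodule.span_mono (R := ℝ) hs)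
    rw [e] at hyX
    simp only [Set.mem_setOf_eq, not_forall, not_le] at hyX
    obtain ⟨g, hg, gy⟩ := hyX
    obtain ⟨i, t, ht, rfl⟩ := hA g hg
    have gX : ∀ x ∈ X, 0 ≤ t * f i x := fun x hx => by rw [e] at hx; exact hx _ hg
    have gy' : t * f i y < 0 := gy
    simp only [ψ] at p ⊢
    by_cases h : ∀ x ∈ Y, t * f i x ≤ 0
    · have : Submodule.span ℝ X < Submodule.span ℝ Y := by
        refine lt_of_le_of_ne (Submodule.span_mono hs) fun k => ?_
        have le : Submodule.span ℝ X ≤ LinearMap.ker (t • f i) :=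
          Submodule.span_le.2 fun x hx => le_antisymm (h x (hs hx)) (gX x hx)
        exact gy'.ne (le (k ▸ Submodule.subset_span hy))
      have := Submodule.finrank_lt_finrank_of_lt this
      omega
    · have : c X ⊂ c Y := by
        refine (Finset.ssubset_iff_of_subset sub).2 ⟨i, ?_, ?_⟩
        · push Not at h
          obtain ⟨z, hz, hz2⟩ := h
          simp only [c, Finset.mem_filter, Finset.mem_univ, true_and]
          constructor <;> intro k <;> have := k y hy <;> have := k z hz <;>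
            rcases lt_or_gt_of_ne ht with h | h <;> nlinarith
        · simp only [c, Finset.mem_filter, Finset.mem_univ, true_and, not_and_or, not_not]
          rcases lt_or_gt_of_ne ht with h | h
          · exact Or.inr fun x hx => by nlinarith [gX x hx]
          · exact Or.inl fun x hx => by nlinarith [gX x hx]
      have := Finset.card_lt_card this
      omega
  refine iSup_le fun p => ?_
  have h1 : (p.length : ℕ∞) ≤ height p.last := length_le_height_last
  have h2 := height_le_height_apply_of_strictMono ψ mono p.last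
  rw [height_nat] at h2
  have h3 : ψ p.last ≤ finrank ℝ V - 1 + Fintype.card ι :=
    add_le_add (Nat.sub_le_sub_right (Submodule.finrank_le _) 1) (Finset.card_le_univ _)
  have : (p.length : ℕ∞) ≤ (finrank ℝ V - 1 + Fintype.card ι : ℕ) :=
    (h1.trans h2).trans (by exact_mod_cast h3)
  exact_mod_cast this

omit [FiniteDimensional ℝ V] in
lemma gen (g : ι → Dual ℝ V) (U : Submodule ℝ V) :
    ∃ b ∈ U, ∀ i j, g i b = g j b → ∀ x ∈ U, g i x = g j x := by
  obtain ⟨b, hb⟩ := Module.Dual.exists_forall_ne_zero_of_forall_exists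
    (ι := {p : ι × ι // ∃ x : U, g p.1 x ≠ g p.2 x})
    (fun p => (g p.1.1 - g p.1.2) ∘ₗ U.subtype) (fun p => by
      obtain ⟨x, hx⟩ := p.2
      exact ⟨x, by simpa [sub_eq_zero] using hx⟩)
  refine ⟨b, b.2, fun i j h x hx => by_contra fun k => hb ⟨(i, j), ⟨x, hx⟩, k⟩ ?_⟩
  simp [h]

lemma face (f : ι → Dual ℝ V) (ess : ∀ x, (∀ i, f i x = 0) → x = 0) (d : ℕ) :
    ∀ (U : Submodule ℝ V) (Z : Set ι) (a : V), finrank ℝ U = d + 1 →
      (∀ x, x ∈ U ↔ ∀ i ∈ Z, f i x = 0) → a ∈ U → (∀ i, 0 ≤ f i a) →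
      (∀ i, f i a = 0 → ∀ x ∈ U, f i x = 0) →
      ∃ h : P f {x | x ∈ U ∧ ∀ i, 0 ≤ f i x}, (d : ℕ∞) ≤ height (⟨_, h⟩ : {X // P f X}) := by
  have key : ∀ (U : Submodule ℝ V) (Z : Set ι) (a : V), finrank ℝ U ≠ 0 →
      (∀ x, x ∈ U ↔ ∀ i ∈ Z, f i x = 0) → a ∈ U → (∀ i, 0 ≤ f i a) →
      (∀ i, f i a = 0 → ∀ x ∈ U, f i x = 0) →
      (∃ i, f i a ≠ 0) ∧ P f {x | x ∈ U ∧ ∀ i, 0 ≤ f i x} := by
    intro U Z a hU hZ ha h1 h2
    have ex : ∃ i, f i a ≠ 0 := by
      by_contra h
      push Not at h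
      refine hU (Submodule.finrank_eq_zero.2 (eq_bot_iff.2 fun x hx => ?_))
      exact ess x fun i => h2 i (h i) x hx
    refine ⟨ex, ⟨Set.range f ∪ (fun i => -f i) '' Z, ?_, ?_⟩, fun h => ?_⟩
    · rintro _ (⟨i, rfl⟩ | ⟨i, -, rfl⟩)
      exacts [⟨i, 1, one_ne_zero, by simp⟩, ⟨i, -1, by norm_num, (neg_one_smul ℝ _).symm⟩]
    · ext x
      simp only [Set.mem_setOf_eq, hZ]
      constructor
      · rintro ⟨h1, h2⟩ _ (⟨i, rfl⟩ | ⟨i, hi, rfl⟩)
        exacts [h2 i, by simp [h1 i hi]]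
      · intro h
        have k := fun i => h _ (Or.inl ⟨i, rfl⟩)
        exact ⟨fun i hi => le_antisymm (by simpa using h _ (Or.inr ⟨i, hi, rfl⟩)) (k i), k⟩
    · obtain ⟨i, hi⟩ := ex
      have : a ∈ ({0} : Set V) := h ▸ ⟨ha, h1⟩
      exact hi (by rw [this, map_zero])
  induction d with
  | zero => exact fun U Z a hU hZ ha h1 h2 => ⟨(key U Z a (by omega) hZ ha h1 h2).2, by simp⟩
  | succ d ih =>
    intro U Z a hU hZ ha h1 h2
    obtain ⟨ex, hP⟩ := key U Z a (by omega) hZ ha h1 h2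
    refine ⟨hP, ?_⟩
    obtain ⟨b, hb, hg⟩ := gen (fun i => (f i a)⁻¹ • f i) U
    simp only [LinearMap.smul_apply, smul_eq_mul] at hg
    obtain ⟨j, hj, hm⟩ := Set.exists_min_image {i | f i a ≠ 0} (fun i => (f i a)⁻¹ * f i b)
      (Set.toFinite _) ex
    have hj' : f j a ≠ 0 := hj
    set t := (f j a)⁻¹ * f j b with ht
    have val : ∀ i, f i a ≠ 0 → f i (b - t • a) = f i a * ((f i a)⁻¹ * f i b - t) := by
      intro i hi
      simp only [map_sub, map_smul, smul_eq_mul]
      field_simp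
    have mem : b - t • a ∈ U := sub_mem hb (U.smul_mem _ ha)
    have rk : finrank ℝ (U ⊓ LinearMap.ker (f j) : Submodule ℝ V) = d + 1 := by
      have := Module.Dual.finrank_ker_add_one_of_ne_zero (f := f j ∘ₗ U.subtype)
        (fun h => hj' (congr($h ⟨a, ha⟩)))
      rw [LinearMap.ker_comp, ← Submodule.finrank_map_subtype_eq,
        Submodule.map_comap_subtype] at this
      omega
    obtain ⟨h', le⟩ := ih (U ⊓ LinearMap.ker (f j)) (insert j Z) (b - t • a) rk
      (fun x => by simp [hZ, and_comm]) ⟨mem, by simp [val j hj', ← ht]⟩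
      (fun i => by
        by_cases hi : f i a = 0
        · exact (h2 i hi _ mem).ge
        · rw [val i hi]
          exact mul_nonneg (h1 i) (sub_nonneg.2 (hm i hi)))
      (fun i h x hx => by
        by_cases hi : f i a = 0
        · exact h2 i hi x hx.1
        · rw [val i hi, mul_eq_zero, sub_eq_zero] at h
          have := hg i j (h.resolve_left hi) x hx.1
          rw [show f j x = 0 from hx.2] at this
          simpa [hi] using this)
    have lt : (⟨_, h'⟩ : {X // P f X}) < ⟨_, hP⟩ :=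
      ⟨fun x hx => ⟨hx.1.1, hx.2⟩, fun k => hj' (k (a := a) ⟨ha, h1⟩).1.2⟩
    push_cast
    exact (add_le_add_left le 1).trans (height_add_one_le lt)

lemma lower1 (f : ι → Dual ℝ V) (ess : ∀ x, (∀ i, f i x = 0) → x = 0) (hV : finrank ℝ V ≠ 0)
    (a : V) (ha : ∀ i, f i a = 1) (inj : Function.Injective f) :
    ((finrank ℝ V - 1 + Fintype.card ι : ℕ) : WithBot ℕ∞) ≤ krullDim {X // P f X} := by
  classical
  obtain ⟨b, -, hb⟩ := gen f ⊤
  have hb' : ∀ i j, f i b = f j b → i = j := fun i j h =>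
    inj (LinearMap.ext fun x => hb i j h x trivial)
  have a0 : a ≠ 0 ∨ IsEmpty ι := by
    rcases isEmpty_or_nonempty ι with h | ⟨⟨i⟩⟩
    · exact Or.inr h
    · exact Or.inl fun h => by simpa [h] using ha i
  have a0 : a ≠ 0 := a0.resolve_right fun h => by
    have : Subsingleton V := ⟨fun x y => by rw [ess x h.elim, ess y h.elim]⟩
    exact hV finrank_zero_of_subsingleton
  have hP : ∀ S : Finset ι, P f {x | ∀ i ∈ S, 0 ≤ f i x} := fun S =>
    ⟨⟨f '' S, by rintro _ ⟨i, -, rfl⟩; exact ⟨i, 1, one_ne_zero, by simp⟩, by simp⟩,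
      fun h => a0 (show a ∈ ({0} : Set V) from h ▸ fun i _ => by simp [ha])⟩
  have main : ∀ k : ℕ, ∀ S : Finset ι, S.card + k = Fintype.card ι →
      (∀ i ∈ S, ∀ j, f i b < f j b → j ∈ S) →
      ((finrank ℝ V - 1 + k : ℕ) : ℕ∞) ≤ height (⟨_, hP S⟩ : {X // P f X}) := by
    intro k
    induction k with
    | zero =>
      intro S hS _
      obtain rfl : S = Finset.univ := Finset.eq_univ_of_card S hS
      obtain ⟨h, le⟩ := face f ess (finrank ℝ V - 1) ⊤ ∅ a (by rw [finrank_top]; omega) (by simp)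
        trivial (by simp [ha]) (by simp [ha])
      refine le.trans (le_of_eq (congrArg _ (Subtype.ext ?_)))
      simp
    | succ k ih =>
      intro S hS hup
      obtain ⟨j, hj, hm⟩ := Finset.exists_max_image Sᶜ (fun i => f i b)
        (Finset.card_pos.1 (by rw [Finset.card_compl]; omega))
      have hj' : j ∉ S := Finset.mem_compl.1 hj
      have le := ih (insert j S) (by rw [Finset.card_insert_of_notMem hj']; omega) (by
        intro i hi l hl
        rcases Finset.mem_insert.1 hi with rfl | hi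
        · by_contra h
          exact (hm l (Finset.mem_compl.2 fun k => h (Finset.mem_insert_of_mem k))).not_gt hl
        · exact Finset.mem_insert_of_mem (hup i hi l hl))
      have ev : ∀ᶠ t in 𝓝 (f j b), ∀ i ∈ S, t < f i b := by
        refine (eventually_all_finset S).2 fun i hi => gt_mem_nhds ?_
        rcases lt_trichotomy (f j b) (f i b) with h | h | h
        exacts [h, absurd (hb' _ _ h ▸ hi) hj', absurd (hup i hi j h) hj']
      obtain ⟨t, t1, t2⟩ := ((ev.filter_mono nhdsWithin_le_nhds).and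
        (self_mem_nhdsWithin (s := Set.Ioi (f j b)))).exists
      have lt : (⟨_, hP (insert j S)⟩ : {X // P f X}) < ⟨_, hP S⟩ := by
        refine ⟨fun x hx i hi => hx i (Finset.mem_insert_of_mem hi), fun k => ?_⟩
        have := k (a := b - t • a) (fun i hi => by simpa [ha] using (t1 i hi).le) j
          (Finset.mem_insert_self _ _)
        simp only [map_sub, map_smul, ha, smul_eq_mul, mul_one, sub_nonneg] at this
        exact this.not_gt t2
      rw [← add_assoc, Nat.cast_add_one]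
      exact (add_le_add_left le 1).trans (height_add_one_le lt)
  have fin := main (Fintype.card ι) ∅ (by simp) (by simp)
  exact le_trans (WithBot.coe_le_coe.2 fin) (height_le_krullDim _)

theorem main (f : ι → Dual ℝ V) (ess : ∀ x, (∀ i, f i x = 0) → x = 0) (hV : finrank ℝ V ≠ 0)
    (h0 : ∀ i, f i ≠ 0) (hp : ∀ i j, ∀ c : ℝ, f i = c • f j → i = j) :
    krullDim {X // P f X} = (finrank ℝ V - 1 + Fintype.card ι : ℕ) := by
  refine le_antisymm (upper f) ?_
  obtain ⟨a, ha⟩ := Module.Dual.exists_forall_ne_zero_of_forall_exists f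
    (fun i => by by_contra h; push Not at h; exact h0 i (LinearMap.ext h))
  have e : P (fun i => (f i a)⁻¹ • f i) = P f := by
    have : ∀ g : Dual ℝ V, (∃ i, ∃ c : ℝ, c ≠ 0 ∧ g = c • (f i a)⁻¹ • f i) ↔
        ∃ i, ∃ c : ℝ, c ≠ 0 ∧ g = c • f i := fun g =>
      ⟨fun ⟨i, c, hc, e⟩ => ⟨i, c * (f i a)⁻¹, mul_ne_zero hc (inv_ne_zero (ha i)), by
        rw [e, smul_smul]⟩, fun ⟨i, c, hc, e⟩ => ⟨i, c * f i a, mul_ne_zero hc (ha i), by
        rw [e, smul_smul, mul_assoc, mul_inv_cancel₀ (ha i), mul_one]⟩⟩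
    funext X
    simp only [P, this]
  rw [← e]
  refine lower1 _ (fun x h => ess x fun i => by simpa [ha i] using h i) hV a
    (fun i => by simp [ha i]) fun i j h => hp i j (f i a * (f j a)⁻¹) ?_
  rw [← smul_smul, ← show (f i a)⁻¹ • f i = (f j a)⁻¹ • f j from h, smul_smul,
    mul_inv_cancel₀ (ha i), one_smul]

end Pool.Agent.H.MP_70010f_co
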